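import Pool.Agent.W84.G.Defs2
import Pool.Agent.W29.GR.Mult

/-!
Project G4 (helper84): CLR and FIBR, the regions for positive discriminant.
-/

set_option autoImplicit false

namespace Pool.Agent.W948.G

open Finset
open Pool.Agent.W78.GA (Qd nm prim gl dt ip)
open Pool.Agent.W78.GR (tp fd ang rg s1 s2 ex Un)
open Pool.Agent.W84.G

variable {t c : ℤ} {η : (Qd t c)ˣ}

lemma s1_intCast (n : ℤ) : s1 (n : Qd t c) = n := by
  unfold s1
  rw [QuadraticAlgebra.re_intCast, QuadraticAlgebra.im_intCast]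
  push_cast
  simp

lemma s2_intCast (n : ℤ) : s2 (n : Qd t c) = n := by
  unfold s2
  rw [QuadraticAlgebra.re_intCast, QuadraticAlgebra.im_intCast]
  push_cast
  simp

lemma rg_ge (U : Un t c η) : 2 * Real.log 2 ≤ rg η := by
  have h1 := U.big
  have h2 := U.five_le
  unfold rg
  have h3 : 2 * Real.log 2 = Real.log (2 ^ 2) := by rw [Real.log_pow]; norm_num
  rw [h3]
  exact Real.log_le_log (by norm_num) (by linarith)

/-- comparison of the embeddings -/
lemma cmp (U : Un t c η) {c₁ X : ℝ} (hc : 0 < c₁) (_hX : 0 < X) {x y : Qd t c} (hx : Kp' η x)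
    (hy : Kp' η y) (h1 : c₁ * X ≤ nm x) (h2 : (nm y : ℝ) ≤ X) :
    s1 y ≤ Real.sqrt (1 / c₁) * Real.exp (rg η / (2 * Real.pi) * (4 * Real.pi + 2)) * s1 x ∧
    s2 y ≤ Real.sqrt (1 / c₁) * Real.exp (rg η / (2 * Real.pi) * (4 * Real.pi + 2)) * s2 x := by
  obtain ⟨a1, a2⟩ := U.s1_polar hx.1
  obtain ⟨b1, b2⟩ := U.s1_polar hy.1
  have hR := U.rg_pos
  have hpi := Real.pi_pos
  set a : ℝ := rg η / (2 * Real.pi) with ha
  have ha0 : 0 < a := by positivity
  have hxa := abs_le.1 hx.2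
  have hya := abs_le.1 hy.2
  have hsq : Real.sqrt (nm y) ≤ Real.sqrt (1 / c₁) * Real.sqrt (nm x) := by
    rw [← Real.sqrt_mul (by positivity)]
    apply Real.sqrt_le_sqrt
    have h3 : X ≤ 1 / c₁ * nm x := by
      rw [one_div, ← div_eq_inv_mul, le_div_iff₀ hc]
      linarith
    linarith
  constructor
  · rw [a1, b1]
    calc Real.sqrt (nm y) * Real.exp (a * ang η y) ≤
        (Real.sqrt (1 / c₁) * Real.sqrt (nm x)) *
          (Real.exp (a * (4 * Real.pi + 2)) * Real.exp (a * ang η x)) := by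
          apply mul_le_mul hsq _ (Real.exp_pos _).le (by positivity)
          rw [← Real.exp_add]
          apply Real.exp_le_exp.2
          nlinarith
      _ = _ := by ring
  · rw [a2, b2]
    calc Real.sqrt (nm y) * Real.exp (-(a * ang η y)) ≤
        (Real.sqrt (1 / c₁) * Real.sqrt (nm x)) *
          (Real.exp (a * (4 * Real.pi + 2)) * Real.exp (-(a * ang η x))) := by
          apply mul_le_mul hsq _ (Real.exp_pos _).le (by positivity)
          rw [← Real.exp_add]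
          apply Real.exp_le_exp.2
          nlinarith
      _ = _ := by ring

/-- CLR -/
theorem clr (U : Un t c η) : S_CLK (Kp' η : Qd t c → Prop) (Kp η) := by
  refine ⟨fun z hz => ⟨Pool.Agent.W78.GR.tp_star hz.1, ?_⟩, ?_⟩
  · rw [Pool.Agent.W78.GR.ang_star, abs_neg]
    exact hz.2
  intro T c₁ hc₁
  set C₃ : ℝ := Real.sqrt (1 / c₁) * Real.exp (rg η / (2 * Real.pi) * (4 * Real.pi + 2)) with hC₃
  have hC0 : 0 < C₃ := by positivity
  refine ⟨⌈2 * C₃⌉₊ + 1, ?_⟩
  intro X x y v p hX hx hy _ _ h1 _ _ h4 _ hd _ hp hv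
  obtain ⟨c1, c2⟩ := cmp U hc₁ hX hx hy h1 h4
  rw [← hC₃] at c1 c2
  have hp1 : (2 * C₃ : ℝ) ≤ p := by
    have h5 : (⌈2 * C₃⌉₊ : ℝ) + 1 ≤ p := by exact_mod_cast hp
    have h6 := Nat.le_ceil (2 * C₃)
    linarith
  have hp0 : (0 : ℝ) < p := by linarith
  have hD : (0 : ℝ) < (dt x y : ℤ) := by exact_mod_cast hd
  have e1 := congrArg s1 hv
  have e2 := congrArg s2 hv
  rw [Pool.Agent.W78.GR.s1_mul U.disc, s1_intCast, sub_eq_add_neg, Pool.Agent.W78.GR.s1_add,
    Pool.Agent.W78.GR.s1_neg, Pool.Agent.W78.GR.s1_mul U.disc, Pool.Agent.W78.GR.s1_natCast] at e1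
  rw [Pool.Agent.W78.GR.s2_mul U.disc, s2_intCast, sub_eq_add_neg, Pool.Agent.W78.GR.s2_add,
    Pool.Agent.W78.GR.s2_neg, Pool.Agent.W78.GR.s2_mul U.disc, Pool.Agent.W78.GR.s2_natCast] at e2
  have hx1 := hx.1.1
  have hx2 := hx.1.2
  have hy1 := hy.1.1
  have hy2 := hy.1.2
  have m1 : C₃ * s1 x ≤ p / 2 * s1 x := mul_le_mul_of_nonneg_right (by linarith) hx1.le
  have m2 : C₃ * s2 x ≤ p / 2 * s2 x := mul_le_mul_of_nonneg_right (by linarith) hx2.le
  have k1 : p / 2 * s1 x ≤ (dt x y : ℤ) * s1 v := by linarith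
  have k2 : p / 2 * s2 x ≤ (dt x y : ℤ) * s2 v := by linarith
  have k3 : (dt x y : ℤ) * s1 v ≤ p * s1 x := by linarith
  have k4 : (dt x y : ℤ) * s2 v ≤ p * s2 x := by linarith
  have q1 : 0 < p / 2 * s1 x := by positivity
  have q2 : 0 < p / 2 * s2 x := by positivity
  have v1 : 0 < s1 v := by
    have := q1.trans_le k1
    exact (mul_pos_iff_of_pos_left hD).1 this
  have v2 : 0 < s2 v := by
    have := q2.trans_le k2
    exact (mul_pos_iff_of_pos_left hD).1 this
  refine ⟨⟨v1, v2⟩, ?_⟩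
  have hr : 0 < s1 x / s2 x := div_pos hx1 hx2
  have hrv : s1 v / s2 v = ((dt x y : ℤ) * s1 v) / ((dt x y : ℤ) * s2 v) := by
    rw [mul_div_mul_left _ _ hD.ne']
  have l1 : s1 v / s2 v ≤ 2 * (s1 x / s2 x) := by
    rw [hrv]
    calc ((dt x y : ℤ) * s1 v) / ((dt x y : ℤ) * s2 v) ≤ (p * s1 x) / (p / 2 * s2 x) :=
          div_le_div₀ (by positivity) k3 q2 k2
      _ = 2 * (s1 x / s2 x) := by field_simp
  have l2 : 1 / 2 * (s1 x / s2 x) ≤ s1 v / s2 v := by
    rw [hrv]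
    calc 1 / 2 * (s1 x / s2 x) = (p / 2 * s1 x) / (p * s2 x) := by field_simp
      _ ≤ _ := div_le_div₀ (by positivity) k1 (by positivity) k4
  have hv0 : 0 < s1 v / s2 v := div_pos v1 v2
  have n1 := Real.log_le_log hv0 l1
  have n2 := Real.log_le_log (by positivity) l2
  rw [Real.log_mul (by norm_num) hr.ne'] at n1 n2
  rw [one_div, Real.log_inv] at n2
  have hR := U.rg_pos
  have hpi := Real.pi_pos
  have hlog2 : 0 < Real.log 2 := Real.log_pos (by norm_num)
  have hb : Real.pi / rg η * Real.log 2 ≤ Real.pi / 2 := by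
    rw [div_mul_eq_mul_div, div_le_iff₀ hR]
    have := mul_le_mul_of_nonneg_left (rg_ge U) hpi.le
    nlinarith
  have hk0 : 0 < Real.pi / rg η := by positivity
  have o1 := mul_le_mul_of_nonneg_left n1 hk0.le
  have o2 := mul_le_mul_of_nonneg_left n2 hk0.le
  have hxa := abs_le.1 hx.2
  have hax : ang η x = Real.pi / rg η * Real.log (s1 x / s2 x) := rfl
  have hav : ang η v = Real.pi / rg η * Real.log (s1 v / s2 v) := rfl
  have hpi3 := Real.pi_gt_three
  rw [abs_le, hav]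
  rw [hax] at hxa
  constructor <;> nlinarith

/-- FIBR -/
theorem fibr (U : Un t c η) : S_FIBK (Kp η : Qd t c → Prop) := by
  classical
  obtain ⟨W, hW⟩ := Pool.Agent.W29.GR.mult U
  have hpi := Real.pi_pos
  refine ⟨W * 7, fun n d S hS => ?_⟩
  have hmaps : ∀ e ∈ S, ex η e.1 ∈ Finset.Icc (-3 : ℤ) 3 := by
    intro e he
    have h1 := abs_le.1 (hS e he).1.2
    unfold ex
    have h2 : (-3 : ℤ) ≤ ⌊ang η e.1 / (2 * Real.pi)⌋ := by
      rw [Int.le_floor, le_div_iff₀ (by positivity)]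
      push_cast
      linarith
    have h3 : ⌊ang η e.1 / (2 * Real.pi)⌋ ≤ 3 := by
      rw [← Int.lt_add_one_iff, Int.floor_lt, div_lt_iff₀ (by positivity)]
      push_cast
      linarith
    rw [Finset.mem_Icc]
    constructor <;> linarith
  have hcard : (Finset.Icc (-3 : ℤ) 3).card = 7 := by decide
  rw [← hcard]
  refine Finset.card_le_mul_card_image_of_maps_to hmaps W fun j _ => ?_
  have hinj : Set.InjOn (fun e : Qd t c × Qd t c =>
      ((((η ^ j : (Qd t c)ˣ) : Qd t c) * e.1, ((η ^ j : (Qd t c)ˣ) : Qd t c) * e.2) :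
        Qd t c × Qd t c)) (S.filter (fun e => ex η e.1 = j) : Finset (Qd t c × Qd t c)) := by
    intro e _ f _ h
    have h1 := (Units.mul_right_inj _).1 (congrArg Prod.fst h)
    have h2 := (Units.mul_right_inj _).1 (congrArg Prod.snd h)
    exact Prod.ext h1 h2
  rw [← Finset.card_image_of_injOn hinj]
  refine hW n d _ fun e he => ?_
  obtain ⟨f, hf, rfl⟩ := Finset.mem_image.1 he
  obtain ⟨hfS, hfj⟩ := Finset.mem_filter.1 hf
  obtain ⟨g1, g2, g3, g4⟩ := hS f hfS
  refine ⟨?_, ?_, ?_, ?_⟩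
  · have := U.rep_fd g1.1
    unfold Pool.Agent.W78.GR.rep at this
    rw [hfj] at this
    exact this
  · show dt _ _ = 1
    rw [U.dt_zpow_mul, g2]
  · show ip _ _ = n
    rw [U.ip_zpow_mul, g3]
  · show nm _ = d
    rw [Un.nm_zpow_mul, g4]

end Pool.Agent.W948.G
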